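import Pool.Agent.TF2.Defs
import Pool.Agent.THF.I.Vk

/-!
# TF2/I-Vk: `GlobL` from Hasse-Weil for the thin fields of bounded degree
-/

namespace Pool.Agent.TF2

open NumberField IsDedekindDomain Pool.Agent.HWR Pool.Agent.QD Pool.Agent.QD.In Pool.Agent.LD
  Pool.Agent.MD Pool.Agent.THF

theorem thinV_of {V T : Finset ℕ} {F : Type} [Field F] [NumberField F]
    (h : Thin (fun _ => V.sup id) T F) : ThinV V T F :=
  ⟨h.1, fun p hpV hp hpT w hw => h.2 p hp hpT (Finset.le_sup (f := id) hpV) w hw⟩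

theorem thinV_quad {V T : Finset ℕ} {K L : Type} [Field K] [NumberField K] [Field L]
    [NumberField L] [Algebra K L] (h : ThinV V T K) : ThinV V T L := by
  refine ⟨⟨fun ψ => h.1.false (ψ.comp (algebraMap K L))⟩, fun p hpV hp hpT w hw => ?_⟩
  have hmem : ((p : ℕ) : 𝓞 K) ∈ w.asIdeal.comap (algebraMap (𝓞 K) (𝓞 L)) := by
    rw [Ideal.mem_comap, map_natCast]
    exact hw
  have hwp : w.asIdeal.IsPrime := w.isPrime
  have hne : w.asIdeal.comap (algebraMap (𝓞 K) (𝓞 L)) ≠ ⊥ := by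
    intro h0
    rw [h0, Ideal.mem_bot] at hmem
    exact hp.ne_zero (by exact_mod_cast hmem)
  have h1 := h.2 p hpV hp hpT ⟨_, Ideal.IsPrime.comap _, hne⟩ hmem
  rw [locDeg_tower ℚ K L ⟨_, Ideal.IsPrime.comap _, hne⟩ w rfl]
  exact h1.mul_right _

theorem globL_of {V T : Finset ℕ} (hTp : ∀ p ∈ T, p.Prime) (D : LocData T) {a : ℕ → ℝ}
    {M B : ℕ} (H : ∀ (F : Type) [Field F] [NumberField F], ThinV V T F →
      2 * M ∣ Module.finrank ℚ F → Module.finrank ℚ F ≤ B → D.HW a F) : GlobL D a M B := by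
  intro K _ _ hK
  obtain ⟨V', h1, h2, h3⟩ := exists_V (fun _ => V.sup id) hTp K
  have hq : ∀ (L : Type) [Field L] [NumberField L] [Algebra K L], Module.finrank K L = 2 →
      Lv (2 * M) B 1 L := fun L _ _ _ hd => hK.quad2 hd
  refine ⟨V', h1, h2, ?_, ?_⟩
  · intro x hx L _ _ _ θ hd hθ
    have h4 := (hq L hd).mono (j := 0) (by norm_num)
    exact H L (thinV_of (h3 x hx L θ hd hθ).1) h4.1 (by simpa using h4.2)
  · intro x hx L _ _ _ θ hd hθ E _ _ _ hE
    have h4 : Lv (2 * M) B 0 E := (hq L hd).quad hE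
    exact H E (thinV_of ((h3 x hx L θ hd hθ).2 E hE)) h4.1 (by simpa using h4.2)

end Pool.Agent.TF2
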